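import Pool.Agent.H24.SCG.Stmts

/-!
Module ZODD of the project SCG: a group of odd order acting as on a projective line has a
common fixed point.
-/

namespace Pool.Agent.H1.SCG

open Pool.SCG

section

variable {K Ω : Type} [Group K] [Fintype K] [MulAction K Ω]

open Classical in
/-- the elements different from one fixing `x` -/
noncomputable def fA (x : Ω) : Finset K := Finset.univ.filter (fun g => g ≠ 1 ∧ g • x = x)

open Classical in
/-- the elements different from one fixing only `x` -/
noncomputable def fB (x : Ω) : Finset K := Finset.univ.filter (fun g => g ≠ 1 ∧ Par g x)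

omit [Fintype K] in
theorem par_fix {g : K} {x : Ω} (h : Par g x) : g • x = x := (h x).2 rfl

omit [Fintype K] in
theorem par_inv {g : K} {x : Ω} (h : Par g x) : Par g⁻¹ x := by
  intro y
  rw [← h y, inv_smul_eq_iff]
  exact ⟨fun e => e.symm, fun e => e.symm⟩

omit [Fintype K] in
theorem par_conj {g : K} {x : Ω} (h : Par g x) (k : K) : Par (k * g * k⁻¹) (k • x) := by
  intro y
  rw [mul_smul, mul_smul]
  constructor
  · intro e
    have : g • (k⁻¹ • y) = k⁻¹ • y := by
      conv_rhs => rw [← e]
      rw [inv_smul_smul]
    have := (h _).1 this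
    rw [← this, smul_inv_smul]
  · intro e
    rw [e, inv_smul_smul, par_fix h]

theorem card_fA_smul (k : K) (x : Ω) : (fA (K := K) (k • x)).card = (fA (K := K) x).card := by
  classical
  symm
  apply Finset.card_bij (fun g _ => k * g * k⁻¹)
  · intro g hg
    simp only [fA, Finset.mem_filter, Finset.mem_univ, true_and] at hg ⊢
    refine ⟨?_, ?_⟩
    · intro e
      apply hg.1
      have : g = k⁻¹ * (k * g * k⁻¹) * k := by group
      rw [this, e]; group
    · rw [mul_smul, mul_smul, inv_smul_smul, hg.2]
  · intro g _ g' _ e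
    have := mul_right_cancel e
    exact mul_left_cancel this
  · intro g hg
    simp only [fA, Finset.mem_filter, Finset.mem_univ, true_and] at hg
    refine ⟨k⁻¹ * g * k, ?_, by group⟩
    simp only [fA, Finset.mem_filter, Finset.mem_univ, true_and]
    refine ⟨?_, ?_⟩
    · intro e
      apply hg.1
      have : g = k * (k⁻¹ * g * k) * k⁻¹ := by group
      rw [this, e]; group
    · rw [mul_smul, mul_smul, hg.2, inv_smul_smul]

theorem card_fB_smul (k : K) (x : Ω) : (fB (K := K) (k • x)).card = (fB (K := K) x).card := by
  classical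
  symm
  apply Finset.card_bij (fun g _ => k * g * k⁻¹)
  · intro g hg
    simp only [fB, Finset.mem_filter, Finset.mem_univ, true_and] at hg ⊢
    refine ⟨?_, par_conj hg.2 k⟩
    intro e
    apply hg.1
    have : g = k⁻¹ * (k * g * k⁻¹) * k := by group
    rw [this, e]; group
  · intro g _ g' _ e
    have := mul_right_cancel e
    exact mul_left_cancel this
  · intro g hg
    simp only [fB, Finset.mem_filter, Finset.mem_univ, true_and] at hg
    refine ⟨k⁻¹ * g * k, ?_, by group⟩
    simp only [fB, Finset.mem_filter, Finset.mem_univ, true_and]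
    refine ⟨?_, ?_⟩
    · intro e
      apply hg.1
      have : g = k * (k⁻¹ * g * k) * k⁻¹ := by group
      rw [this, e]; group
    · have := par_conj hg.2 k⁻¹
      rwa [inv_smul_smul, inv_inv] at this

/-- number of elements of the stabiliser -/
theorem card_stab (x : Ω) : Nat.card (MulAction.stabilizer K x) = (fA (K := K) x).card + 1 := by
  classical
  have h1 : ((MulAction.stabilizer K x : Subgroup K) : Set K)
      = ((insert (1 : K) (fA (K := K) x) : Finset K) : Set K) := by
    ext g
    simp only [SetLike.mem_coe, MulAction.mem_stabilizer_iff, Finset.coe_insert, fA,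
      Finset.coe_filter, Finset.mem_univ, true_and, Set.mem_insert_iff, Set.mem_ofPred_eq]
    constructor
    · intro h
      by_cases hg : g = 1
      · exact Or.inl hg
      · exact Or.inr ⟨hg, h⟩
    · rintro (rfl | h)
      · exact one_smul _ _
      · exact h.2
  have h2 : (1 : K) ∉ fA (K := K) x := by simp [fA]
  have h3 : Nat.card (MulAction.stabilizer K x)
      = Nat.card ((MulAction.stabilizer K x : Subgroup K) : Set K) := rfl
  rw [h3, h1, Nat.card_eq_card_toFinset, Finset.toFinset_coe, Finset.card_insert_of_notMem h2]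

/-- the subgroup of elements fixing only `x`, and one -/
def pSub (hZ : Zas K Ω) (x : Ω) : Subgroup K where
  carrier := {g | g = 1 ∨ Par g x}
  one_mem' := Or.inl rfl
  mul_mem' := by
    rintro a b (rfl | ha) (rfl | hb)
    · exact Or.inl (one_mul 1)
    · rw [one_mul]; exact Or.inr hb
    · rw [mul_one]; exact Or.inr ha
    · exact hZ.uni_mul x a b ha hb
  inv_mem' := by
    rintro a (rfl | ha)
    · exact Or.inl inv_one
    · exact Or.inr (par_inv ha)

theorem card_pSub (hZ : Zas K Ω) (x : Ω) :
    Nat.card (pSub hZ x) = (fB (K := K) x).card + 1 := by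
  classical
  have h1 : ((pSub hZ x : Subgroup K) : Set K)
      = ((insert (1 : K) (fB (K := K) x) : Finset K) : Set K) := by
    ext g
    simp only [SetLike.mem_coe, Finset.coe_insert, fB,
      Finset.coe_filter, Finset.mem_univ, true_and, Set.mem_insert_iff, Set.mem_ofPred_eq]
    constructor
    · rintro (h | h)
      · exact Or.inl h
      · by_cases hg : g = 1
        · exact Or.inl hg
        · exact Or.inr ⟨hg, h⟩
    · rintro (h | h)
      · exact Or.inl h
      · exact Or.inr h.2
  have h2 : (1 : K) ∉ fB (K := K) x := by simp [fB]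
  have h3 : Nat.card (pSub hZ x)
      = Nat.card ((pSub hZ x : Subgroup K) : Set K) := rfl
  rw [h3, h1, Nat.card_eq_card_toFinset, Finset.toFinset_coe, Finset.card_insert_of_notMem h2]

open Classical in
/-- the orbit of `x` -/
noncomputable def fO (K : Type) {Ω : Type} [Group K] [Fintype K] [MulAction K Ω] (x : Ω) :
    Finset Ω := Finset.univ.image (fun g : K => g • x)

theorem mem_fO {x y : Ω} : y ∈ fO K x ↔ ∃ g : K, g • x = y := by
  classical
  simp [fO]

theorem card_orb (x : Ω) : (fO K x).card * ((fA (K := K) x).card + 1) = Nat.card K := by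
  classical
  rw [← card_stab x]
  have h1 : (fO K x).card = Nat.card (MulAction.orbit K x) := by
    have : (MulAction.orbit K x) = ((fO K x : Finset Ω) : Set Ω) := by
      ext y
      rw [Finset.mem_coe, mem_fO]
      exact MulAction.mem_orbit_iff
    rw [this, Nat.card_eq_card_toFinset, Finset.toFinset_coe]
  rw [h1]
  have : Finite (MulAction.orbit K x) := Finite.of_surjective
    (fun g : K => (⟨g • x, MulAction.mem_orbit x g⟩ : MulAction.orbit K x)) (by
      rintro ⟨_, g, rfl⟩
      exact ⟨g, rfl⟩)
  have : Fintype (MulAction.orbit K x) := Fintype.ofFinite _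
  have : Fintype (MulAction.stabilizer K x) := Fintype.ofFinite _
  have := MulAction.card_orbit_mul_card_stabilizer_eq_card_group K x
  rw [Nat.card_eq_fintype_card, Nat.card_eq_fintype_card, Nat.card_eq_fintype_card]
  exact this

/-- the sum over an orbit -/
theorem sum_orb (x : Ω) : ∑ y ∈ fO K x, ((fA (K := K) y).card + (fB (K := K) y).card)
    = (fO K x).card * ((fA (K := K) x).card + (fB (K := K) x).card) := by
  classical
  rw [← smul_eq_mul, ← Finset.sum_const]
  apply Finset.sum_congr rfl
  intro y hy
  obtain ⟨g, rfl⟩ := mem_fO.1 hy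
  rw [card_fA_smul, card_fB_smul]

/-- orbits are equal or disjoint -/
theorem fO_disj {x y : Ω} (h : y ∉ fO K x) : Disjoint (fO K x) (fO K y) := by
  classical
  rw [Finset.disjoint_left]
  intro z hz hz'
  obtain ⟨g, hg⟩ := mem_fO.1 hz
  obtain ⟨k, hk⟩ := mem_fO.1 hz'
  apply h
  rw [mem_fO]
  refine ⟨k⁻¹ * g, ?_⟩
  rw [mul_smul, hg, ← hk, inv_smul_smul]

/-- the double count -/
theorem count (hZ : Zas K Ω) : ∃ S : Finset Ω, (∀ x, x ∈ S ↔ 1 ≤ (fA (K := K) x).card) ∧
    ∑ y ∈ S, ((fA (K := K) y).card + (fB (K := K) y).card) = 2 * (Nat.card K - 1) := by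
  classical
  -- finite sets of fixed points
  have hF : ∀ g : K, ∃ F : Finset Ω, g ≠ 1 → ∀ x, x ∈ F ↔ g • x = x := by
    intro g
    obtain ⟨x0, hx0⟩ := hZ.fix1 g
    by_cases h2 : ∃ y0, y0 ≠ x0 ∧ g • y0 = y0
    · obtain ⟨y0, hy0, hgy⟩ := h2
      refine ⟨{x0, y0}, fun hg x => ?_⟩
      simp only [Finset.mem_insert, Finset.mem_singleton]
      constructor
      · rintro (rfl | rfl)
        · exact hx0
        · exact hgy
      · intro hx
        rcases hZ.fix2 g hg x0 y0 x hx0 hgy hx with h | h | h
        · exact absurd h.symm hy0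
        · exact Or.inr h.symm
        · exact Or.inl h.symm
    · refine ⟨{x0}, fun _ x => ?_⟩
      simp only [Finset.mem_singleton]
      constructor
      · rintro rfl
        exact hx0
      · intro hx
        by_contra hne
        exact h2 ⟨x, hne, hx⟩
  choose F hF using hF
  refine ⟨(Finset.univ.erase (1 : K)).biUnion F, ?_, ?_⟩
  · intro x
    rw [Finset.mem_biUnion]
    constructor
    · rintro ⟨g, hg, hx⟩
      have hg1 : g ≠ 1 := (Finset.mem_erase.1 hg).1
      rw [Nat.one_le_iff_ne_zero, Finset.card_ne_zero]
      refine ⟨g, ?_⟩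
      simp only [fA, Finset.mem_filter, Finset.mem_univ, true_and]
      exact ⟨hg1, (hF g hg1 x).1 hx⟩
    · intro h
      obtain ⟨g, hg⟩ := Finset.card_pos.1 h
      simp only [fA, Finset.mem_filter, Finset.mem_univ, true_and] at hg
      exact ⟨g, Finset.mem_erase.2 ⟨hg.1, Finset.mem_univ _⟩, (hF g hg.1 x).2 hg.2⟩
  · have e1 : ∀ y : Ω, (fA (K := K) y).card + (fB (K := K) y).card
        = ∑ g ∈ Finset.univ.erase (1 : K),
          ((if g • y = y then 1 else 0) + (if Par g y then 1 else 0)) := by
      intro y
      rw [Finset.sum_add_distrib, ← Finset.card_filter, ← Finset.card_filter]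
      congr 1
      · congr 1
        ext g
        simp [fA]
      · congr 1
        ext g
        simp [fB]
    rw [Finset.sum_congr rfl (fun y _ => e1 y), Finset.sum_comm]
    have e2 : ∀ g ∈ Finset.univ.erase (1 : K),
        ∑ y ∈ (Finset.univ.erase (1 : K)).biUnion F,
          ((if g • y = y then 1 else 0) + (if Par g y then 1 else 0)) = 2 := by
      intro g hg
      have hg1 : g ≠ 1 := (Finset.mem_erase.1 hg).1
      have hS : ∀ y, g • y = y → y ∈ (Finset.univ.erase (1 : K)).biUnion F := fun y hy =>
        Finset.mem_biUnion.2 ⟨g, hg, (hF g hg1 y).2 hy⟩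
      obtain ⟨x0, hx0⟩ := hZ.fix1 g
      rw [Finset.sum_add_distrib]
      by_cases hp : Par g x0
      · have a1 : ∀ y ∈ (Finset.univ.erase (1 : K)).biUnion F,
            (if g • y = y then 1 else 0) = if y = x0 then 1 else 0 := by
          intro y _
          simp only [hp y]
        have a2 : ∀ y ∈ (Finset.univ.erase (1 : K)).biUnion F,
            (if Par g y then 1 else 0) = if y = x0 then 1 else 0 := by
          intro y _
          by_cases hy : y = x0
          · rw [hy, if_pos hp, if_pos rfl]
          · rw [if_neg hy, if_neg]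
            intro h
            exact hy (((h x0).1 hx0).symm)
        rw [Finset.sum_congr rfl a1, Finset.sum_congr rfl a2, Finset.sum_ite_eq', if_pos (hS x0 hx0)]
      · have h2 : ∃ y0, y0 ≠ x0 ∧ g • y0 = y0 := by
          by_contra hcon
          apply hp
          intro y
          constructor
          · intro hy
            by_contra hne
            exact hcon ⟨y, hne, hy⟩
          · rintro rfl
            exact hx0
        obtain ⟨y0, hy0, hgy⟩ := h2
        have a1 : ∀ y ∈ (Finset.univ.erase (1 : K)).biUnion F,
            (if g • y = y then 1 else 0) = (if y = x0 then 1 else 0) + (if y = y0 then 1 else 0) := by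
          intro y _
          by_cases h1 : y = x0
          · rw [if_pos h1, h1, if_pos hx0, if_neg (fun h => hy0 h.symm)]
          · by_cases h3 : y = y0
            · rw [if_neg h1, if_pos h3, h3, if_pos hgy]
            · rw [if_neg h1, if_neg h3, if_neg]
              intro h
              rcases hZ.fix2 g hg1 x0 y0 y hx0 hgy h with h | h | h
              · exact hy0 h.symm
              · exact h3 h.symm
              · exact h1 h.symm
        have a2 : ∀ y ∈ (Finset.univ.erase (1 : K)).biUnion F,
            (if Par g y then 1 else 0) = 0 := by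
          intro y _
          rw [if_neg]
          intro h
          exact hy0 (((h y0).1 hgy).trans ((h x0).1 hx0).symm)
        rw [Finset.sum_congr rfl a1, Finset.sum_congr rfl a2, Finset.sum_const_zero, add_zero,
          Finset.sum_add_distrib, Finset.sum_ite_eq', Finset.sum_ite_eq', if_pos (hS x0 hx0),
          if_pos (hS y0 hgy)]
    rw [Finset.sum_congr rfl e2, Finset.sum_const, Finset.card_erase_of_mem (Finset.mem_univ _),
      Finset.card_univ, smul_eq_mul, mul_comm, Nat.card_eq_fintype_card]

/-- a point with orbit of size one is a common fixed point -/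
theorem fixed_of_card {x : Ω} (h : (fO K x).card = 1) : ∀ g : K, g • x = x := by
  classical
  intro g
  obtain ⟨z, hz⟩ := Finset.card_eq_one.1 h
  have h1 : g • x ∈ fO K x := mem_fO.2 ⟨g, rfl⟩
  have h2 : x ∈ fO K x := mem_fO.2 ⟨1, one_smul _ _⟩
  rw [hz, Finset.mem_singleton] at h1 h2
  rw [h1, ← h2]

/-- another point in the orbit has many images under the elements fixing only `x` -/
theorem orb_big (hZ : Zas K Ω) {x : Ω} (h : (fO K x).card ≠ 1) :
    (fB (K := K) x).card + 2 ≤ (fO K x).card := by
  classical
  have h2 : x ∈ fO K x := mem_fO.2 ⟨1, one_smul _ _⟩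
  have h3 : ∃ z ∈ fO K x, z ≠ x := by
    by_contra hcon
    push Not at hcon
    apply h
    rw [Finset.card_eq_one]
    refine ⟨x, ?_⟩
    ext z
    rw [Finset.mem_singleton]
    exact ⟨fun hz => hcon z hz, fun hz => hz ▸ h2⟩
  obtain ⟨z, hz, hzx⟩ := h3
  have h4 : (insert (1 : K) (fB (K := K) x)).card ≤ ((fO K x).erase x).card := by
    apply Finset.card_le_card_of_injOn (fun g => g • z)
    · intro g hg
      have hg' : g = 1 ∨ (g ≠ 1 ∧ Par g x) := by
        simpa [fB] using hg
      rw [Finset.mem_coe, Finset.mem_erase]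
      refine ⟨?_, ?_⟩
      · intro e
        rcases hg' with rfl | hg'
        · exact hzx ((one_smul K z).symm.trans e)
        · apply hzx
          have : z = g⁻¹ • x := eq_inv_smul_iff.2 e
          rw [this]
          exact par_fix (par_inv hg'.2)
      · obtain ⟨k, hk⟩ := mem_fO.1 hz
        rw [mem_fO]
        exact ⟨g * k, by rw [mul_smul, hk]⟩
    · intro g hg g' hg' e
      have hg1 : g ∈ pSub hZ x := by
        have : g = 1 ∨ (g ≠ 1 ∧ Par g x) := by simpa [fB] using hg
        rcases this with h | h
        · exact Or.inl h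
        · exact Or.inr h.2
      have hg2 : g' ∈ pSub hZ x := by
        have : g' = 1 ∨ (g' ≠ 1 ∧ Par g' x) := by simpa [fB] using hg'
        rcases this with h | h
        · exact Or.inl h
        · exact Or.inr h.2
      have hm : g'⁻¹ * g ∈ pSub hZ x := (pSub hZ x).mul_mem ((pSub hZ x).inv_mem hg2) hg1
      have hfix : (g'⁻¹ * g) • z = z := by
        have e' : g • z = g' • z := e
        rw [mul_smul, e', inv_smul_smul]
      rcases hm with h | h
      · rw [inv_mul_eq_one] at h
        exact h.symm
      · exact absurd ((h z).1 hfix) hzx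
  have h5 : (1 : K) ∉ fB (K := K) x := by simp [fB]
  rw [Finset.card_insert_of_notMem h5, Finset.card_erase_of_mem h2] at h4
  have h6 : 0 < (fO K x).card := Finset.card_pos.2 ⟨x, h2⟩
  omega

/-- the stabiliser is not much bigger -/
theorem stab_small (hZ : Zas K Ω) {x : Ω} (h : 0 < (fB (K := K) x).card) :
    (fA (K := K) x).card + 1 ≤ ((fB (K := K) x).card + 1) * (fB (K := K) x).card := by
  classical
  obtain ⟨u, hu⟩ := Finset.card_pos.1 h
  have hu' : u ≠ 1 ∧ Par u x := by simpa [fB] using hu
  have h5 : (1 : K) ∉ fA (K := K) x := by simp [fA]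
  have h6 : (1 : K) ∉ fB (K := K) x := by simp [fB]
  rw [← Finset.card_insert_of_notMem h5]
  have hmemA : ∀ g, g ∈ insert (1 : K) (fA (K := K) x) → g • x = x := by
    intro g hg
    have : g = 1 ∨ (g ≠ 1 ∧ g • x = x) := by simpa [fA] using hg
    rcases this with rfl | h
    · exact one_smul _ _
    · exact h.2
  have hb : ∀ b ∈ (insert (1 : K) (fA (K := K) x)).image (fun g => g * u * g⁻¹),
      ((insert (1 : K) (fA (K := K) x)).filter (fun g => g * u * g⁻¹ = b)).card
        ≤ (fB (K := K) x).card + 1 := by
    intro b hb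
    obtain ⟨g0, hg0, rfl⟩ := Finset.mem_image.1 hb
    rw [← Finset.card_insert_of_notMem h6]
    apply Finset.card_le_card_of_injOn (fun g => g0⁻¹ * g)
    · intro g hg
      rw [Finset.mem_coe, Finset.mem_filter] at hg
      have c1 : (g0⁻¹ * g) * u = u * (g0⁻¹ * g) := by
        have : g * u = (g0 * u * g0⁻¹) * g := by rw [← hg.2]; group
        calc (g0⁻¹ * g) * u = g0⁻¹ * (g * u) := by group
          _ = g0⁻¹ * ((g0 * u * g0⁻¹) * g) := by rw [this]
          _ = u * (g0⁻¹ * g) := by group
      have c2 : (g0⁻¹ * g) • x = x := by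
        rw [mul_smul, hmemA g hg.1, inv_smul_eq_iff, hmemA g0 hg0]
      have c3 := hZ.uni_comm x u (g0⁻¹ * g) hu'.2 c2 c1
      show g0⁻¹ * g ∈ ((insert (1 : K) (fB (K := K) x) : Finset K) : Set K)
      rw [Finset.mem_coe, Finset.mem_insert]
      by_cases h1 : g0⁻¹ * g = 1
      · exact Or.inl h1
      · refine Or.inr ?_
        rw [fB, Finset.mem_filter]
        exact ⟨Finset.mem_univ _, h1, c3.resolve_left h1⟩
    · intro g _ g' _ e
      exact mul_left_cancel e
  have h7 := Finset.card_le_mul_card_image (insert (1 : K) (fA (K := K) x))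
    ((fB (K := K) x).card + 1) hb
  refine h7.trans (Nat.mul_le_mul_left _ ?_)
  apply Finset.card_le_card
  intro b hb'
  obtain ⟨g, hg, rfl⟩ := Finset.mem_image.1 hb'
  rw [fB, Finset.mem_filter]
  refine ⟨Finset.mem_univ _, ?_, ?_⟩
  · intro e
    apply hu'.1
    have : u = g⁻¹ * (g * u * g⁻¹) * g := by group
    rw [this, e]; group
  · have := par_conj hu'.2 g
    rwa [hmemA g hg] at this

/-- odd order: the stabiliser of a point in the support has order at least three -/
theorem A_even (hodd : Odd (Nat.card K)) (x : Ω) : Even (fA (K := K) x).card := by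
  have h : Odd ((fO K x).card * ((fA (K := K) x).card + 1)) := by rw [card_orb]; exact hodd
  have := (Nat.odd_mul.1 h).2
  rw [Nat.odd_add_one, Nat.not_odd_iff_even] at this
  exact this

theorem O_odd (hodd : Odd (Nat.card K)) (x : Ω) : Odd (fO K x).card := by
  have h : Odd ((fO K x).card * ((fA (K := K) x).card + 1)) := by rw [card_orb]; exact hodd
  exact (Nat.odd_mul.1 h).1

theorem B_even (hZ : Zas K Ω) (hodd : Odd (Nat.card K)) (x : Ω) :
    Even (fB (K := K) x).card := by
  have h1 : Nat.card (pSub hZ x) ∣ Nat.card K := Subgroup.card_subgroup_dvd_card _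
  have h2 : Odd (Nat.card (pSub hZ x)) := Odd.of_dvd_nat hodd h1
  rw [card_pSub, Nat.odd_add_one, Nat.not_odd_iff_even] at h2
  exact h2

theorem main (hZ : Zas K Ω) (hodd : Odd (Nat.card K)) : ∃ x : Ω, ∀ g : K, g • x = x := by
  classical
  obtain ⟨S, hS, hsum⟩ := count hZ
  by_cases htriv : ∀ g : K, g = 1
  · obtain ⟨x, hx⟩ := hZ.fix1 (1 : K)
    exact ⟨x, fun g => by rw [htriv g]; exact hx⟩
  push Not at htriv
  obtain ⟨g0, hg0⟩ := htriv
  -- the choice of the first orbit
  have hy : ∃ y : Ω, y ∈ S ∧ ((∃ z : Ω, 0 < (fB (K := K) z).card) → 0 < (fB (K := K) y).card) := by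
    by_cases hB : ∃ z : Ω, 0 < (fB (K := K) z).card
    · obtain ⟨z, hz⟩ := hB
      refine ⟨z, ?_, fun _ => hz⟩
      rw [hS]
      obtain ⟨u, hu⟩ := Finset.card_pos.1 hz
      have hu' : u ≠ 1 ∧ Par u z := by simpa [fB] using hu
      refine Finset.card_pos.2 ⟨u, ?_⟩
      rw [fA, Finset.mem_filter]
      exact ⟨Finset.mem_univ _, hu'.1, par_fix hu'.2⟩
    · obtain ⟨x, hx⟩ := hZ.fix1 g0
      refine ⟨x, ?_, fun h => absurd h hB⟩
      rw [hS]
      refine Finset.card_pos.2 ⟨g0, ?_⟩
      rw [fA, Finset.mem_filter]
      exact ⟨Finset.mem_univ _, hg0, hx⟩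
  obtain ⟨y, hyS, hyB⟩ := hy
  have hA2 : ∀ x ∈ S, 2 ≤ (fA (K := K) x).card := by
    intro x hx
    have h1 := (hS x).1 hx
    have h2 := A_even hodd x
    rcases h2 with ⟨r, hr⟩
    omega
  have hsub : ∀ x ∈ S, fO K x ⊆ S := by
    intro x hx z hz
    obtain ⟨g, rfl⟩ := mem_fO.1 hz
    rw [hS, card_fA_smul]
    exact (hS x).1 hx
  have hKpos : 0 < Nat.card K := Nat.card_pos
  refine ⟨y, fixed_of_card ?_⟩
  have cy := card_orb (K := K) y
  have oy := O_odd hodd y
  have ay := hA2 y hyS
  have sy := sum_orb (K := K) y
  by_cases hcase : ∀ z ∈ S, z ∈ fO K y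
  · have hSe : S = fO K y := Finset.Subset.antisymm hcase (hsub y hyS)
    rw [hSe, sy] at hsum
    have hBA : (fB (K := K) y).card ≤ (fA (K := K) y).card := by
      apply Finset.card_le_card
      intro g hg
      rw [fB, Finset.mem_filter] at hg
      rw [fA, Finset.mem_filter]
      exact ⟨hg.1, hg.2.1, par_fix hg.2.2⟩
    generalize (fO K y).card = o at *
    generalize (fA (K := K) y).card = a at *
    generalize (fB (K := K) y).card = b at *
    generalize Nat.card K = n at *
    obtain ⟨c, rfl⟩ := Nat.exists_eq_add_of_le hBA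
    have h2 : o * (c + 2) = 2 := by
      have e1 : o * (b + c + b) = 2 * (o * (b + c + 1) - 1) := by rw [cy]; exact hsum
      have e2 : 1 ≤ o * (b + c + 1) := by rw [cy]; exact hKpos
      zify [e2] at e1 ⊢
      linarith [e1]
    have h3 : o ∣ 2 := Dvd.intro _ h2
    rcases (Nat.dvd_prime Nat.prime_two).1 h3 with h | h
    · exact h
    · rw [h] at oy
      exact absurd oy (by decide)
  · push Not at hcase
    obtain ⟨z, hzS, hzy⟩ := hcase
    have cz := card_orb (K := K) z
    have oz := O_odd hodd z
    have az := hA2 z hzS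
    have sz := sum_orb (K := K) z
    by_cases hcase2 : ∀ w ∈ S, w ∈ fO K y ∨ w ∈ fO K z
    · have hSe : S = (fO K y).disjUnion (fO K z) (fO_disj hzy) := by
        ext w
        rw [Finset.mem_disjUnion]
        constructor
        · exact hcase2 w
        · rintro (h | h)
          · exact hsub y hyS h
          · exact hsub z hzS h
      rw [hSe, Finset.sum_disjUnion, sy, sz] at hsum
      have by2 := B_even hZ hodd y
      have bz2 := B_even hZ hodd z
      by_cases hby : 0 < (fB (K := K) y).card
      · by_contra hne
        have big := orb_big hZ hne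
        have small := stab_small hZ hby
        have opos : 0 < (fO K z).card := oz.pos
        generalize (fO K y).card = o1 at *
        generalize (fA (K := K) y).card = a1 at *
        generalize (fB (K := K) y).card = b1 at *
        generalize (fO K z).card = o2 at *
        generalize (fA (K := K) z).card = a2 at *
        generalize (fB (K := K) z).card = b2 at *
        generalize Nat.card K = n at *
        have e0 : o1 * b1 + o2 * b2 + 2 = o1 + o2 := by
          have h1 : 1 ≤ n := hKpos
          zify [h1] at hsum cy cz ⊢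
          linarith [hsum, cy, cz]
        have hb1 : 2 ≤ b1 := by
          rcases by2 with ⟨r, hr⟩
          omega
        have hb2 : b2 = 0 := by
          by_contra hb2
          have hb2' : 2 ≤ b2 := by
            rcases bz2 with ⟨r, hr⟩
            omega
          have i1 : o1 * 2 ≤ o1 * b1 := Nat.mul_le_mul_left _ hb1
          have i2 : o2 * 2 ≤ o2 * b2 := Nat.mul_le_mul_left _ hb2'
          omega
        rw [hb2, mul_zero, add_zero] at e0
        -- coprimality
        have hcop : Nat.Coprime o2 o1 := by
          have hg1 : Nat.gcd o2 o1 ∣ 2 := by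
            have d1 : Nat.gcd o2 o1 ∣ o1 * b1 + 2 := by
              rw [e0]
              exact Nat.dvd_add (Nat.gcd_dvd_right _ _) (Nat.gcd_dvd_left _ _)
            have d2 : Nat.gcd o2 o1 ∣ o1 * b1 := Dvd.dvd.mul_right (Nat.gcd_dvd_right _ _) _
            exact (Nat.dvd_add_right d2).1 d1
          have hg2 : Odd (Nat.gcd o2 o1) := Odd.of_dvd_nat oy (Nat.gcd_dvd_right _ _)
          rcases (Nat.dvd_prime Nat.prime_two).1 hg1 with h | h
          · exact h
          · rw [h] at hg2
            exact absurd hg2 (by decide)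
        have hdvd : o2 ∣ a1 + 1 := by
          apply hcop.dvd_of_dvd_mul_left
          rw [cy, ← cz]
          exact Dvd.intro _ rfl
        have hle : o2 ≤ a1 + 1 := Nat.le_of_dvd (Nat.succ_pos _) hdvd
        -- the size of the second orbit
        have hge : (b1 + 1) * b1 ≤ o2 := by
          have i1 : (b1 + 2) * (b1 - 1) ≤ o1 * (b1 - 1) := Nat.mul_le_mul_right _ big
          have h1 : 1 ≤ b1 := by omega
          zify [h1] at i1 e0 ⊢
          nlinarith [i1, e0]
        have heq : o2 = (b1 + 1) * b1 := by omega
        have hev : Even ((b1 + 1) * b1) := by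
          rw [mul_comm]
          exact Nat.even_mul_succ_self b1
        rw [← heq] at hev
        exact (Nat.not_even_iff_odd.2 oz) hev
      · have hbz : (fB (K := K) z).card = 0 := by
          by_contra hbz
          exact hby (hyB ⟨z, Nat.pos_of_ne_zero hbz⟩)
        have hby0 : (fB (K := K) y).card = 0 := by omega
        have opos1 : 0 < (fO K y).card := oy.pos
        have opos2 : 0 < (fO K z).card := oz.pos
        rw [hbz, hby0] at hsum
        generalize (fO K y).card = o1 at *
        generalize (fA (K := K) y).card = a1 at *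
        generalize (fO K z).card = o2 at *
        generalize (fA (K := K) z).card = a2 at *
        generalize Nat.card K = n at *
        have e0 : 2 = o1 + o2 := by
          have h1 : 1 ≤ n := hKpos
          zify [h1] at hsum cy cz ⊢
          linarith [hsum, cy, cz]
        omega
    · exfalso
      push Not at hcase2
      obtain ⟨w, hwS, hwy, hwz⟩ := hcase2
      have cw := card_orb (K := K) w
      have aw := hA2 w hwS
      have sw := sum_orb (K := K) w
      have hle : ∑ v ∈ ((fO K y).disjUnion (fO K z) (fO_disj hzy)).disjUnion (fO K w)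
          (Finset.disjoint_left.2 (fun v hv hv' => by
            rcases Finset.mem_disjUnion.1 hv with h | h
            · exact Finset.disjoint_left.1 (fO_disj hwy) h hv'
            · exact Finset.disjoint_left.1 (fO_disj hwz) h hv')),
          ((fA (K := K) v).card + (fB (K := K) v).card)
          ≤ ∑ v ∈ S, ((fA (K := K) v).card + (fB (K := K) v).card) := by
        apply Finset.sum_le_sum_of_subset
        intro v hv
        rcases Finset.mem_disjUnion.1 hv with h | h
        · rcases Finset.mem_disjUnion.1 h with h | h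
          · exact hsub y hyS h
          · exact hsub z hzS h
        · exact hsub w hwS h
      rw [Finset.sum_disjUnion, Finset.sum_disjUnion, sy, sz, sw, hsum] at hle
      generalize (fO K y).card = o1 at *
      generalize (fA (K := K) y).card = a1 at *
      generalize (fB (K := K) y).card = b1 at *
      generalize (fO K z).card = o2 at *
      generalize (fA (K := K) z).card = a2 at *
      generalize (fB (K := K) z).card = b2 at *
      generalize (fO K w).card = o3 at *
      generalize (fA (K := K) w).card = a3 at *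
      generalize (fB (K := K) w).card = b3 at *
      generalize Nat.card K = n at *
      have i1 : 2 * n ≤ 3 * (o1 * (a1 + b1)) := by
        rw [← cy]
        have : 2 * (a1 + 1) ≤ 3 * (a1 + b1) := by omega
        calc 2 * (o1 * (a1 + 1)) = o1 * (2 * (a1 + 1)) := by ring
          _ ≤ o1 * (3 * (a1 + b1)) := Nat.mul_le_mul_left _ this
          _ = _ := by ring
      have i2 : 2 * n ≤ 3 * (o2 * (a2 + b2)) := by
        rw [← cz]
        have : 2 * (a2 + 1) ≤ 3 * (a2 + b2) := by omega
        calc 2 * (o2 * (a2 + 1)) = o2 * (2 * (a2 + 1)) := by ring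
          _ ≤ o2 * (3 * (a2 + b2)) := Nat.mul_le_mul_left _ this
          _ = _ := by ring
      have i3 : 2 * n ≤ 3 * (o3 * (a3 + b3)) := by
        rw [← cw]
        have : 2 * (a3 + 1) ≤ 3 * (a3 + b3) := by omega
        calc 2 * (o3 * (a3 + 1)) = o3 * (2 * (a3 + 1)) := by ring
          _ ≤ o3 * (3 * (a3 + b3)) := Nat.mul_le_mul_left _ this
          _ = _ := by ring
      omega

end

theorem zodd_thm : ZODDStmt := by
  intro K Ω _ _ _ hZ hodd
  have := Fintype.ofFinite K
  exact main hZ hodd

end Pool.Agent.H1.SCG
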